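import Pool.Agent.helper68.SF.SpecW

/-! Module sw:NB (MP_d52931_gt): bounds for `N` and its derivatives. -/

set_option autoImplicit false

namespace SF

open scoped ContDiff
open MeasureTheory Set

/-! ### profiles -/

theorem NB_prof_deriv {g : ℝ → ℝ} (hg : Prof g) : Prof (deriv g) := by
  have h1 : ∀ a, a < 1 → deriv g a = 0 := by
    intro a ha
    have : g =ᶠ[nhds a] fun _ => (0 : ℝ) := by
      filter_upwards [Iio_mem_nhds ha] with x hx
      exact hg.lo x (le_of_lt hx)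
    rw [this.deriv_eq, deriv_const]
  have h3 : ∀ a, 3 < a → deriv g a = 0 := by
    intro a ha
    have : g =ᶠ[nhds a] fun _ => (0 : ℝ) := by
      filter_upwards [Ioi_mem_nhds ha] with x hx
      exact hg.hi x (le_of_lt hx)
    rw [this.deriv_eq, deriv_const]
  have hc : ContDiff ℝ ∞ (deriv g) := by
    have := hg.smooth
    rw [contDiff_infty_iff_deriv] at this
    exact this.2
  have hcont : Continuous (deriv g) := hc.continuous
  refine ⟨hc, ?_, ?_⟩
  · intro a ha
    rcases ha.lt_or_eq with ha | rfl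
    · exact h1 a ha
    · have hcl : IsClosed {x | deriv g x = 0} := isClosed_eq hcont continuous_const
      have : (1 : ℝ) ∈ closure (Iio (1 : ℝ)) := by rw [closure_Iio]; exact self_mem_Iic
      exact (closure_minimal (fun x hx => h1 x hx) hcl) this
  · intro a ha
    rcases ha.lt_or_eq with ha | rfl
    · exact h3 a ha
    · have hcl : IsClosed {x | deriv g x = 0} := isClosed_eq hcont continuous_const
      have : (3 : ℝ) ∈ closure (Ioi (3 : ℝ)) := by rw [closure_Ioi]; exact self_mem_Ici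
      exact (closure_minimal (fun x hx => h3 x hx) hcl) this

theorem NB_prof_mul {g : ℝ → ℝ} (hg : Prof g) : Prof (fun a => a * g a) := by
  refine ⟨contDiff_id.mul hg.smooth, ?_, ?_⟩
  · intro a ha
    simp only [hg.lo a ha, mul_zero]
  · intro a ha
    simp only [hg.hi a ha, mul_zero]

theorem NB_prof_bdd {g : ℝ → ℝ} (hg : Prof g) : ∃ M, 0 ≤ M ∧ ∀ a, |g a| ≤ M := by
  obtain ⟨M, hM⟩ := (isCompact_Icc (a := (1 : ℝ)) (b := 3)).exists_bound_of_continuousOn
    hg.smooth.continuous.continuousOn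
  refine ⟨|M|, abs_nonneg _, fun a => ?_⟩
  by_cases ha : a ∈ Icc (1 : ℝ) 3
  · exact (hM a ha).trans (le_abs_self M)
  · have : g a = 0 := by
      by_cases h1 : a ≤ 1
      · exact hg.lo a h1
      · refine hg.hi a ?_
        by_contra h3
        exact ha ⟨(not_le.1 h1).le, (not_le.1 h3).le⟩
    rw [this, abs_zero]
    exact abs_nonneg _

/-! ### the double integral -/

/-- The strip. -/
def NB_st : Set (ℝ × ℝ) := Ioc (0 : ℝ) 1 ×ˢ univ

theorem NB_st_meas : MeasurableSet NB_st := measurableSet_Ioc.prod MeasurableSet.univ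

/-- The integrand. -/
noncomputable def NB_F (φ : ℝ → ℝ) (n : ℕ) (A c : ℝ) (z : ℝ × ℝ) : ℝ :=
  φ (A * (z.2 ^ 2 + (1 - c ^ 2 * (1 - z.1 ^ 2)))) * (1 - z.1 ^ 2) ^ n

/-- The integral. -/
noncomputable def NB_I (φ : ℝ → ℝ) (n : ℕ) (A c : ℝ) : ℝ :=
  ∫ z in NB_st, NB_F φ n A c z

/-- The dominating function. -/
noncomputable def NB_b (K T : ℝ) (z : ℝ × ℝ) : ℝ :=
  (univ ×ˢ Icc (-T) T : Set (ℝ × ℝ)).indicator (fun _ => K) z

theorem NB_b_int (K T : ℝ) (hT : 0 ≤ T) : Integrable (NB_b K T) (volume.restrict NB_st) ∧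
    ∫ z in NB_st, NB_b K T z = 2 * T * K := by
  have hm : MeasurableSet (univ ×ˢ Icc (-T) T : Set (ℝ × ℝ)) :=
    MeasurableSet.univ.prod measurableSet_Icc
  have hv : (volume.restrict NB_st) (univ ×ˢ Icc (-T) T : Set (ℝ × ℝ)) =
      ENNReal.ofReal (2 * T) := by
    rw [Measure.restrict_apply hm]
    have : (univ ×ˢ Icc (-T) T : Set (ℝ × ℝ)) ∩ NB_st = Ioc (0 : ℝ) 1 ×ˢ Icc (-T) T := by
      ext z
      simp only [NB_st, mem_inter_iff, mem_prod, mem_univ, true_and, and_true]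
      tauto
    rw [this, Measure.volume_eq_prod, Measure.prod_prod, Real.volume_Ioc, Real.volume_Icc]
    rw [sub_zero, ENNReal.ofReal_one, one_mul]
    congr 1
    ring
  constructor
  · unfold NB_b
    rw [integrable_indicator_iff hm]
    refine integrableOn_const ?_
    rw [hv]
    exact ENNReal.ofReal_ne_top
  · unfold NB_b
    rw [integral_indicator hm, setIntegral_const, smul_eq_mul, Measure.real, hv,
      ENNReal.toReal_ofReal (by positivity)]

theorem NB_F_cont {φ : ℝ → ℝ} (hφ : Continuous φ) (n : ℕ) (A c : ℝ) :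
    Continuous (NB_F φ n A c) := by
  unfold NB_F
  fun_prop

/-- the weight is in `[0, 1]` -/
theorem NB_w {z : ℝ × ℝ} (hz : z ∈ NB_st) : 0 ≤ 1 - z.1 ^ 2 ∧ 1 - z.1 ^ 2 ≤ 1 := by
  have h1 : 0 < z.1 := hz.1.1
  have h2 : z.1 ≤ 1 := hz.1.2
  constructor
  · nlinarith
  · nlinarith [sq_nonneg z.1]

theorem NB_wn {z : ℝ × ℝ} (hz : z ∈ NB_st) (n : ℕ) :
    0 ≤ (1 - z.1 ^ 2) ^ n ∧ (1 - z.1 ^ 2) ^ n ≤ 1 :=
  ⟨pow_nonneg (NB_w hz).1 n, pow_le_one₀ (NB_w hz).1 (NB_w hz).2⟩

/-- general bound of the integrand -/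
theorem NB_F_le {φ : ℝ → ℝ} (hφ : Prof φ) {M : ℝ} (hM : ∀ a, |φ a| ≤ M) (n : ℕ) {A c T : ℝ}
    (hA : 0 < A) (hT : 0 ≤ T) {z : ℝ × ℝ} (hz : z ∈ NB_st)
    (hTz : 3 / A - (1 - c ^ 2 * (1 - z.1 ^ 2)) ≤ T ^ 2) :
    |NB_F φ n A c z| ≤ NB_b M T z := by
  unfold NB_b
  by_cases h : z ∈ (univ ×ˢ Icc (-T) T : Set (ℝ × ℝ))
  · rw [indicator_of_mem h]
    unfold NB_F
    rw [abs_mul, abs_of_nonneg (NB_wn hz n).1]
    calc |φ (A * (z.2 ^ 2 + (1 - c ^ 2 * (1 - z.1 ^ 2))))| * (1 - z.1 ^ 2) ^ n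
        ≤ M * 1 := mul_le_mul (hM _) (NB_wn hz n).2 (NB_wn hz n).1
          ((abs_nonneg _).trans (hM 0))
      _ = M := mul_one M
  · rw [indicator_of_notMem h]
    have h1 : ¬ (|z.2| ≤ T) := by
      intro h2
      exact h ⟨trivial, abs_le.1 h2⟩
    have h2 : T ^ 2 < z.2 ^ 2 := by
      rw [← sq_abs z.2]
      exact pow_lt_pow_left₀ (not_le.1 h1) hT two_ne_zero
    have h3 : 3 ≤ A * (z.2 ^ 2 + (1 - c ^ 2 * (1 - z.1 ^ 2))) := by
      have h4 : 3 / A ≤ z.2 ^ 2 + (1 - c ^ 2 * (1 - z.1 ^ 2)) := by linarith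
      rw [div_le_iff₀ hA] at h4
      linarith
    unfold NB_F
    rw [hφ.hi _ h3, zero_mul, abs_zero]

theorem NB_F_int {φ : ℝ → ℝ} (hφ : Prof φ) (n : ℕ) {A : ℝ} (c : ℝ) (hA : 0 < A) :
    Integrable (NB_F φ n A c) (volume.restrict NB_st) := by
  obtain ⟨M, hM0, hM⟩ := NB_prof_bdd hφ
  let T : ℝ := 3 / A + c ^ 2 + 1
  have hT : 1 ≤ T := by
    have : 0 < 3 / A := by positivity
    have : 0 ≤ c ^ 2 := sq_nonneg c
    change 1 ≤ 3 / A + c ^ 2 + 1
    linarith
  have hT0 : 0 ≤ T := by linarith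
  refine (NB_b_int M T hT0).1.mono' (NB_F_cont hφ.smooth.continuous n A c).aestronglyMeasurable ?_
  filter_upwards [ae_restrict_mem NB_st_meas] with z hz
  refine NB_F_le hφ hM n hA hT0 hz ?_
  have h1 := NB_w hz
  have h2 : c ^ 2 * (1 - z.1 ^ 2) ≤ c ^ 2 := by
    nlinarith [sq_nonneg c]
  have h3 : T ≤ T ^ 2 := by nlinarith
  have h4 : T = 3 / A + c ^ 2 + 1 := rfl
  linarith

/-- The bound. -/
theorem NB_bound {φ : ℝ → ℝ} (hφ : Prof φ) {M : ℝ} (hM : ∀ a, |φ a| ≤ M) (n : ℕ) {A c : ℝ}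
    (hA : 0 < A) (hc : |c| ≤ 1) : |NB_I φ n A c| ≤ 2 * √(3 / A) * M := by
  have hT : 0 ≤ √(3 / A) := Real.sqrt_nonneg _
  unfold NB_I
  rw [← (NB_b_int M _ hT).2, ← Real.norm_eq_abs]
  refine norm_integral_le_of_norm_le (NB_b_int M _ hT).1 ?_
  filter_upwards [ae_restrict_mem NB_st_meas] with z hz
  refine NB_F_le hφ hM n hA hT hz ?_
  rw [Real.sq_sqrt (by positivity)]
  have h1 := NB_w hz
  have h2 : c ^ 2 ≤ 1 := by
    rw [← sq_abs]
    exact pow_le_one₀ (abs_nonneg c) hc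
  have h3 : c ^ 2 * (1 - z.1 ^ 2) ≤ 1 := by nlinarith [sq_nonneg c]
  linarith

/-- The derivative with respect to `c`. -/
theorem NB_dc {φ : ℝ → ℝ} (hφ : Prof φ) (n : ℕ) {A : ℝ} (c : ℝ) (hA : 0 < A) :
    HasDerivAt (fun t => NB_I φ n A t) (-2 * c * A * NB_I (deriv φ) (n + 1) A c) c := by
  have hφ' := NB_prof_deriv hφ
  obtain ⟨M, hM0, hM⟩ := NB_prof_bdd hφ'
  let R : ℝ := |c| + 1
  have hR : 1 ≤ R := by
    have := abs_nonneg c
    change 1 ≤ |c| + 1
    linarith
  let T : ℝ := 3 / A + R ^ 2 + 1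
  have hT : 1 ≤ T := by
    have h1 : 0 < 3 / A := by positivity
    have h2 : 0 ≤ R ^ 2 := sq_nonneg R
    change 1 ≤ 3 / A + R ^ 2 + 1
    linarith
  have hT0 : 0 ≤ T := by linarith
  have hkey := hasDerivAt_integral_of_dominated_loc_of_deriv_le
    (μ := volume.restrict NB_st) (F := fun t z => NB_F φ n A t z)
    (F' := fun t z => -2 * t * A * NB_F (deriv φ) (n + 1) A t z) (x₀ := c)
    (s := Metric.ball c 1) (bound := fun z => 2 * R * A * NB_b M T z)
    (Metric.ball_mem_nhds c one_pos)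
    (Filter.Eventually.of_forall fun t =>
      (NB_F_cont hφ.smooth.continuous n A t).aestronglyMeasurable)
    (NB_F_int hφ n c hA)
    ((continuous_const.mul (NB_F_cont hφ'.smooth.continuous (n + 1) A c)).aestronglyMeasurable)
    (by
      filter_upwards [ae_restrict_mem NB_st_meas] with z hz
      intro t ht
      have ht1 : |t| ≤ R := by
        have h1 : |t - c| < 1 := by simpa [Real.dist_eq] using ht
        have h2 : |t| ≤ |t - c| + |c| := by
          have := abs_add_le (t - c) c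
          rwa [sub_add_cancel] at this
        change |t| ≤ |c| + 1
        linarith
      have h3 : |NB_F (deriv φ) (n + 1) A t z| ≤ NB_b M T z := by
        refine NB_F_le hφ' hM (n + 1) hA hT0 hz ?_
        have h1 := NB_w hz
        have h4 : t ^ 2 ≤ R ^ 2 := by
          rw [← sq_abs t]
          exact pow_le_pow_left₀ (abs_nonneg t) ht1 2
        have h2 : t ^ 2 * (1 - z.1 ^ 2) ≤ R ^ 2 := by
          nlinarith [sq_nonneg t]
        have h5 : T ≤ T ^ 2 := by nlinarith
        have h6 : T = 3 / A + R ^ 2 + 1 := rfl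
        linarith
      rw [Real.norm_eq_abs, abs_mul]
      refine mul_le_mul ?_ h3 (abs_nonneg _) (by positivity)
      rw [abs_mul, abs_mul, abs_of_pos hA]
      have : |(-2 : ℝ)| = 2 := by norm_num
      rw [this]
      nlinarith [abs_nonneg t])
    ((NB_b_int M T hT0).1.const_mul _)
    (by
      filter_upwards [ae_restrict_mem NB_st_meas] with z hz
      intro t ht
      have h1 : HasDerivAt (fun t : ℝ => A * (z.2 ^ 2 + (1 - t ^ 2 * (1 - z.1 ^ 2))))
          (A * (-(2 * t) * (1 - z.1 ^ 2))) t := by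
        have h2 : HasDerivAt (fun t : ℝ => t ^ 2) (2 * t) t := by
          simpa using hasDerivAt_pow 2 t
        have h3 := (((h2.mul_const (1 - z.1 ^ 2)).const_sub 1).const_add (z.2 ^ 2)).const_mul A
        refine h3.congr_deriv ?_
        ring
      have h4 : HasDerivAt φ (deriv φ (A * (z.2 ^ 2 + (1 - t ^ 2 * (1 - z.1 ^ 2)))))
          (A * (z.2 ^ 2 + (1 - t ^ 2 * (1 - z.1 ^ 2)))) :=
        ((hφ.smooth.differentiable (by simp)) _).hasDerivAt
      have h5 := (h4.comp t h1).mul_const ((1 - z.1 ^ 2) ^ n)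
      refine h5.congr_deriv ?_
      unfold NB_F
      ring)
  have h7 := hkey.2
  unfold NB_I
  refine h7.congr_deriv ?_
  rw [integral_const_mul]

/-- The derivative with respect to `A`. -/
theorem NB_dA {φ : ℝ → ℝ} (hφ : Prof φ) (n : ℕ) {A : ℝ} (c : ℝ) (hA : 0 < A) :
    HasDerivAt (fun a => NB_I φ n a c) (A⁻¹ * NB_I (fun x => x * deriv φ x) n A c) A := by
  have hφ' := NB_prof_mul (NB_prof_deriv hφ)
  obtain ⟨M, hM0, hM⟩ := NB_prof_bdd hφ'
  let T : ℝ := 6 / A + c ^ 2 + 1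
  have hT : 1 ≤ T := by
    have h1 : 0 < 6 / A := by positivity
    have h2 : 0 ≤ c ^ 2 := sq_nonneg c
    change 1 ≤ 6 / A + c ^ 2 + 1
    linarith
  have hT0 : 0 ≤ T := by linarith
  have hkey := hasDerivAt_integral_of_dominated_loc_of_deriv_le
    (μ := volume.restrict NB_st) (F := fun a z => NB_F φ n a c z)
    (F' := fun a z => a⁻¹ * NB_F (fun x => x * deriv φ x) n a c z) (x₀ := A)
    (s := Ioi (A / 2)) (bound := fun z => 2 / A * NB_b M T z)
    (Ioi_mem_nhds (by linarith))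
    (Filter.Eventually.of_forall fun a =>
      (NB_F_cont hφ.smooth.continuous n a c).aestronglyMeasurable)
    (NB_F_int hφ n c hA)
    ((continuous_const.mul (NB_F_cont hφ'.smooth.continuous n A c)).aestronglyMeasurable)
    (by
      filter_upwards [ae_restrict_mem NB_st_meas] with z hz
      intro a ha
      have ha2 : A / 2 < a := ha
      have ha0 : 0 < a := by linarith
      have h3 : |NB_F (fun x => x * deriv φ x) n a c z| ≤ NB_b M T z := by
        refine NB_F_le hφ' hM n ha0 hT0 hz ?_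
        have h1 := NB_w hz
        have h2 : c ^ 2 * (1 - z.1 ^ 2) ≤ c ^ 2 := by
          nlinarith [sq_nonneg c]
        have h5 : T ≤ T ^ 2 := by nlinarith
        have h6 : T = 6 / A + c ^ 2 + 1 := rfl
        have h7 : 3 / a ≤ 6 / A := by
          rw [div_le_div_iff₀ ha0 hA]
          linarith
        linarith
      rw [Real.norm_eq_abs, abs_mul]
      refine mul_le_mul ?_ h3 (abs_nonneg _) (by positivity)
      rw [abs_of_pos (inv_pos.2 ha0), inv_eq_one_div, div_le_div_iff₀ ha0 hA]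
      linarith)
    ((NB_b_int M T hT0).1.const_mul _)
    (by
      filter_upwards [ae_restrict_mem NB_st_meas] with z hz
      intro a ha
      have ha2 : A / 2 < a := ha
      have ha0 : 0 < a := by linarith
      have h1 : HasDerivAt (fun a : ℝ => a * (z.2 ^ 2 + (1 - c ^ 2 * (1 - z.1 ^ 2))))
          (z.2 ^ 2 + (1 - c ^ 2 * (1 - z.1 ^ 2))) a := by
        simpa using (hasDerivAt_id a).mul_const (z.2 ^ 2 + (1 - c ^ 2 * (1 - z.1 ^ 2)))
      have h4 : HasDerivAt φ (deriv φ (a * (z.2 ^ 2 + (1 - c ^ 2 * (1 - z.1 ^ 2)))))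
          (a * (z.2 ^ 2 + (1 - c ^ 2 * (1 - z.1 ^ 2)))) :=
        ((hφ.smooth.differentiable (by simp)) _).hasDerivAt
      have h5 := (h4.comp a h1).mul_const ((1 - z.1 ^ 2) ^ n)
      refine h5.congr_deriv ?_
      unfold NB_F
      field_simp)
  have h7 := hkey.2
  unfold NB_I
  refine h7.congr_deriv ?_
  rw [integral_const_mul]

/-- `N` as a double integral over the strip. -/
theorem NB_NN {g : ℝ → ℝ} (hg : Prof g) {A : ℝ} (c : ℝ) (hA : 0 < A) :
    NN g A c = A * c * NB_I (deriv g) 0 A c := by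
  unfold NN NB_I
  have h1 := intervalIntegral.smul_integral_comp_mul_left
    (f := fun p : ℝ => ∫ t : ℝ, deriv g (A * (p ^ 2 + t ^ 2 + 1 - c ^ 2))) (a := 0) (b := 1) c
  rw [mul_zero, mul_one] at h1
  rw [← h1, smul_eq_mul, intervalIntegral.integral_of_le zero_le_one, mul_assoc]
  congr 2
  have hint := NB_F_int (NB_prof_deriv hg) 0 c hA
  have h2 : IntegrableOn (NB_F (deriv g) 0 A c) (Ioc (0 : ℝ) 1 ×ˢ univ) (volume.prod volume) := by
    rw [← Measure.volume_eq_prod]
    exact hint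
  have h3 := setIntegral_prod (NB_F (deriv g) 0 A c) h2
  rw [← Measure.volume_eq_prod] at h3
  unfold NB_st
  rw [h3]
  refine setIntegral_congr_fun measurableSet_Ioc fun u hu => ?_
  simp only [Measure.restrict_univ]
  refine integral_congr_ae (Filter.Eventually.of_forall fun t => ?_)
  simp only [NB_F, pow_zero, mul_one]
  congr 1
  ring

theorem NB : NB_stmt := by
  refine ⟨100, by norm_num, ?_⟩
  intro g B hg hB A c hA hc
  have hg1 := NB_prof_deriv hg
  have hg2 := NB_prof_deriv hg1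
  have hg3 := NB_prof_deriv hg2
  have hb1 : ∀ a, |deriv g a| ≤ B := fun a => by
    have := hB 1 (by norm_num) a
    rwa [iteratedDeriv_one] at this
  have hb2 : ∀ a, |deriv (deriv g) a| ≤ B := fun a => by
    have := hB 2 (by norm_num) a
    rwa [iteratedDeriv_succ, iteratedDeriv_one] at this
  have hb3 : ∀ a, |deriv (deriv (deriv g)) a| ≤ B := fun a => by
    have := hB 3 (by norm_num) a
    rwa [iteratedDeriv_succ, iteratedDeriv_succ, iteratedDeriv_one] at this
  have hB0 : 0 ≤ B := (abs_nonneg _).trans (hb1 0)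
  have hmul : ∀ {φ : ℝ → ℝ}, Prof φ → (∀ a, |φ a| ≤ B) → ∀ a, |a * φ a| ≤ 3 * B := by
    intro φ hφ hφB a
    by_cases h1 : a ≤ 1
    · rw [hφ.lo a h1, mul_zero, abs_zero]; positivity
    · by_cases h3 : 3 ≤ a
      · rw [hφ.hi a h3, mul_zero, abs_zero]; positivity
      · rw [abs_mul, abs_of_pos (by linarith : (0 : ℝ) < a)]
        exact mul_le_mul (by linarith) (hφB a) (abs_nonneg _) (by norm_num)
  -- formulas
  have hd1 : ∀ a t : ℝ, 0 < a → HasDerivAt (fun u => NN g a u)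
      (a * NB_I (deriv g) 0 a t - 2 * a ^ 2 * t ^ 2 * NB_I (deriv (deriv g)) 1 a t) t := by
    intro a t ha
    have e : (fun u => NN g a u) = fun u => a * u * NB_I (deriv g) 0 a u :=
      funext fun u => NB_NN hg u ha
    rw [e]
    have h1 : HasDerivAt (fun u : ℝ => a * u) a t := by
      simpa using (hasDerivAt_id t).const_mul a
    have h2 := h1.mul (NB_dc hg1 0 t ha)
    refine h2.congr_deriv ?_
    rw [zero_add]
    ring
  have hd1' : ∀ a : ℝ, 0 < a → (fun t => deriv (fun u => NN g a u) t) = fun t =>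
      a * NB_I (deriv g) 0 a t - 2 * a ^ 2 * t ^ 2 * NB_I (deriv (deriv g)) 1 a t :=
    fun a ha => funext fun t => (hd1 a t ha).deriv
  have hd2 : ∀ t : ℝ, HasDerivAt (fun t => deriv (fun u => NN g A u) t)
      (-6 * A ^ 2 * t * NB_I (deriv (deriv g)) 1 A t +
        4 * A ^ 3 * t ^ 3 * NB_I (deriv (deriv (deriv g))) 2 A t) t := by
    intro t
    rw [hd1' A hA]
    have h1 := (NB_dc hg1 0 t hA).const_mul A
    have h2 := NB_dc hg2 1 t hA
    have h3 : HasDerivAt (fun t : ℝ => 2 * A ^ 2 * t ^ 2) (2 * A ^ 2 * (2 * t)) t := by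
      have : HasDerivAt (fun t : ℝ => t ^ 2) (2 * t) t := by simpa using hasDerivAt_pow 2 t
      exact this.const_mul _
    have h4 := h1.sub (h3.mul h2)
    refine h4.congr_deriv ?_
    norm_num
    ring
  have hdA : HasDerivAt (fun a => NN g a c)
      (c * NB_I (deriv g) 0 A c + c * NB_I (fun x => x * deriv (deriv g) x) 0 A c) A := by
    have e : (fun a => NN g a c) =ᶠ[nhds A] fun a => a * c * NB_I (deriv g) 0 a c := by
      filter_upwards [Ioi_mem_nhds hA] with a ha
      exact NB_NN hg c ha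
    refine HasDerivAt.congr_of_eventuallyEq ?_ e
    have h1 : HasDerivAt (fun a : ℝ => a * c) c A := by
      simpa using (hasDerivAt_id A).mul_const c
    have h2 := h1.mul (NB_dA hg1 0 c hA)
    refine h2.congr_deriv ?_
    field_simp
  have hdcA : HasDerivAt (fun a => deriv (fun t => NN g a t) c)
      (NB_I (deriv g) 0 A c + NB_I (fun x => x * deriv (deriv g) x) 0 A c
        - (4 * A * c ^ 2 * NB_I (deriv (deriv g)) 1 A c +
          2 * A * c ^ 2 * NB_I (fun x => x * deriv (deriv (deriv g)) x) 1 A c)) A := by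
    have e : (fun a => deriv (fun t => NN g a t) c) =ᶠ[nhds A] fun a =>
        a * NB_I (deriv g) 0 a c - 2 * a ^ 2 * c ^ 2 * NB_I (deriv (deriv g)) 1 a c := by
      filter_upwards [Ioi_mem_nhds hA] with a ha
      exact (hd1 a c ha).deriv
    refine HasDerivAt.congr_of_eventuallyEq ?_ e
    have h1 := (hasDerivAt_id A).mul (NB_dA hg1 0 c hA)
    have h2 := NB_dA hg2 1 c hA
    have h3 : HasDerivAt (fun a : ℝ => 2 * a ^ 2 * c ^ 2) (2 * (2 * A) * c ^ 2) A := by
      have : HasDerivAt (fun t : ℝ => t ^ 2) (2 * A) A := by simpa using hasDerivAt_pow 2 A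
      exact (this.const_mul 2).mul_const _
    have h4 := h1.sub (h3.mul h2)
    refine h4.congr_deriv ?_
    simp only [id]
    field_simp
    ring
  -- bounds
  set s : ℝ := √A with hs
  have hs0 : 0 < s := Real.sqrt_pos.2 hA
  have hA' : A = s ^ 2 := (Real.sq_sqrt hA.le).symm
  have hq : √(3 / A) = √3 / s := by
    rw [Real.sqrt_div (by norm_num)]
  have h3 : √3 ≤ 2 := by
    rw [Real.sqrt_le_left (by norm_num)]
    norm_num
  have hbd : ∀ {φ : ℝ → ℝ}, Prof φ → ∀ {M : ℝ}, (∀ a, |φ a| ≤ M) → 0 ≤ M → ∀ n : ℕ,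
      A * |NB_I φ n A c| ≤ 4 * M * s := by
    intro φ hφ M hM hM0 n
    have h := NB_bound hφ hM n hA hc
    rw [hq] at h
    have h5 : A * |NB_I φ n A c| ≤ A * (2 * (√3 / s) * M) :=
      mul_le_mul_of_nonneg_left h hA.le
    refine h5.trans ?_
    have h6 : A * (2 * (√3 / s) * M) = 2 * √3 * M * s := by
      rw [hA']
      field_simp
    rw [h6]
    have h7 : 0 ≤ M * s := by positivity
    nlinarith
  have b1 := hbd hg1 hb1 hB0 0
  have b2 := hbd hg2 hb2 hB0 1
  have b3 := hbd hg3 hb3 hB0 2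
  have b4 := hbd (NB_prof_mul hg2) (hmul hg2 hb2) (by positivity) 0
  have b5 := hbd (NB_prof_mul hg3) (hmul hg3 hb3) (by positivity) 1
  have hBs : 0 ≤ B * s := by positivity
  have hc2 : c ^ 2 ≤ 1 := by
    rw [← sq_abs]
    exact pow_le_one₀ (abs_nonneg c) hc
  have hc3 : |c| ^ 3 ≤ 1 := pow_le_one₀ (abs_nonneg c) hc
  have hc0 := abs_nonneg c
  refine ⟨?_, ?_, ?_, ?_, ?_⟩
  · rw [NB_NN hg c hA, abs_mul, abs_mul, abs_of_pos hA]
    have e : A * |c| * |NB_I (deriv g) 0 A c| = |c| * (A * |NB_I (deriv g) 0 A c|) := by ring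
    rw [e]
    have h5 : |c| * (A * |NB_I (deriv g) 0 A c|) ≤ 1 * (4 * B * s) :=
      mul_le_mul hc b1 (by positivity) (by norm_num)
    linarith
  · rw [(hd1 A c hA).deriv]
    have h5 : |A * NB_I (deriv g) 0 A c - 2 * A ^ 2 * c ^ 2 * NB_I (deriv (deriv g)) 1 A c| ≤
        A * |NB_I (deriv g) 0 A c| + 2 * A * c ^ 2 * (A * |NB_I (deriv (deriv g)) 1 A c|) := by
      refine (abs_sub _ _).trans (le_of_eq ?_)
      rw [abs_mul, abs_mul, abs_mul, abs_mul, abs_of_pos hA, abs_of_pos (by positivity : 0 < A ^ 2),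
        abs_of_nonneg (sq_nonneg c), abs_of_pos (by norm_num : (0 : ℝ) < 2)]
      ring
    have h6 : 2 * A * c ^ 2 * (A * |NB_I (deriv (deriv g)) 1 A c|) ≤ 2 * A * 1 * (4 * B * s) := by
      refine mul_le_mul ?_ b2 (by positivity) (by positivity)
      nlinarith
    have h7 : 0 ≤ B * s * A := by positivity
    have h8 : 0 ≤ B * s * A ^ 2 := by positivity
    nlinarith
  · rw [(hd2 c).deriv]
    have h5 : |-6 * A ^ 2 * c * NB_I (deriv (deriv g)) 1 A c +
        4 * A ^ 3 * c ^ 3 * NB_I (deriv (deriv (deriv g))) 2 A c| ≤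
        6 * A * |c| * (A * |NB_I (deriv (deriv g)) 1 A c|) +
          4 * A ^ 2 * |c| ^ 3 * (A * |NB_I (deriv (deriv (deriv g))) 2 A c|) := by
      refine (abs_add_le _ _).trans (le_of_eq ?_)
      rw [abs_mul, abs_mul, abs_mul, abs_mul, abs_mul, abs_mul, abs_pow c,
        abs_of_pos (by positivity : 0 < A ^ 2), abs_of_pos (by positivity : 0 < A ^ 3)]
      norm_num
      ring
    have h6 : 6 * A * |c| * (A * |NB_I (deriv (deriv g)) 1 A c|) ≤ 6 * A * 1 * (4 * B * s) := by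
      refine mul_le_mul ?_ b2 (by positivity) (by positivity)
      nlinarith
    have h6' : 4 * A ^ 2 * |c| ^ 3 * (A * |NB_I (deriv (deriv (deriv g))) 2 A c|) ≤
        4 * A ^ 2 * 1 * (4 * B * s) := by
      refine mul_le_mul ?_ b3 (by positivity) (by positivity)
      exact mul_le_mul_of_nonneg_left hc3 (by positivity)
    have h7 : 0 ≤ B * s * A := by positivity
    have h8 : 0 ≤ B * s * A ^ 2 := by positivity
    nlinarith
  · rw [hdA.deriv]
    have h5 : A * |c * NB_I (deriv g) 0 A c + c * NB_I (fun x => x * deriv (deriv g) x) 0 A c| ≤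
        |c| * (A * |NB_I (deriv g) 0 A c|) +
          |c| * (A * |NB_I (fun x => x * deriv (deriv g) x) 0 A c|) := by
      refine (mul_le_mul_of_nonneg_left (abs_add_le _ _) hA.le).trans (le_of_eq ?_)
      rw [abs_mul, abs_mul]
      ring
    have h6 : |c| * (A * |NB_I (deriv g) 0 A c|) ≤ 1 * (4 * B * s) :=
      mul_le_mul hc b1 (by positivity) (by norm_num)
    have h6' : |c| * (A * |NB_I (fun x => x * deriv (deriv g) x) 0 A c|) ≤
        1 * (4 * (3 * B) * s) :=
      mul_le_mul hc b4 (by positivity) (by norm_num)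
    have h7 : 0 ≤ B * s * A := by positivity
    have h8 : 0 ≤ B * s * A ^ 2 := by positivity
    nlinarith
  · rw [hdcA.deriv]
    have h5 : A * |NB_I (deriv g) 0 A c + NB_I (fun x => x * deriv (deriv g) x) 0 A c
        - (4 * A * c ^ 2 * NB_I (deriv (deriv g)) 1 A c +
          2 * A * c ^ 2 * NB_I (fun x => x * deriv (deriv (deriv g)) x) 1 A c)| ≤
        (A * |NB_I (deriv g) 0 A c| + A * |NB_I (fun x => x * deriv (deriv g) x) 0 A c|) +
          (4 * A * c ^ 2 * (A * |NB_I (deriv (deriv g)) 1 A c|) +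
          2 * A * c ^ 2 * (A * |NB_I (fun x => x * deriv (deriv (deriv g)) x) 1 A c|)) := by
      have h9 := abs_sub (NB_I (deriv g) 0 A c + NB_I (fun x => x * deriv (deriv g) x) 0 A c)
        (4 * A * c ^ 2 * NB_I (deriv (deriv g)) 1 A c +
          2 * A * c ^ 2 * NB_I (fun x => x * deriv (deriv (deriv g)) x) 1 A c)
      have h10 := abs_add_le (NB_I (deriv g) 0 A c)
        (NB_I (fun x => x * deriv (deriv g) x) 0 A c)
      have h11 := abs_add_le (4 * A * c ^ 2 * NB_I (deriv (deriv g)) 1 A c)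
        (2 * A * c ^ 2 * NB_I (fun x => x * deriv (deriv (deriv g)) x) 1 A c)
      have h12 : |4 * A * c ^ 2 * NB_I (deriv (deriv g)) 1 A c| =
          4 * A * c ^ 2 * |NB_I (deriv (deriv g)) 1 A c| := by
        rw [abs_mul, abs_of_nonneg (by positivity)]
      have h13 : |2 * A * c ^ 2 * NB_I (fun x => x * deriv (deriv (deriv g)) x) 1 A c| =
          2 * A * c ^ 2 * |NB_I (fun x => x * deriv (deriv (deriv g)) x) 1 A c| := by
        rw [abs_mul, abs_of_nonneg (by positivity)]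
      rw [h12, h13] at h11
      refine (mul_le_mul_of_nonneg_left (h9.trans (add_le_add h10 h11)) hA.le).trans
        (le_of_eq ?_)
      ring
    have h6 : 4 * A * c ^ 2 * (A * |NB_I (deriv (deriv g)) 1 A c|) ≤ 4 * A * 1 * (4 * B * s) := by
      refine mul_le_mul ?_ b2 (by positivity) (by positivity)
      nlinarith
    have h6' : 2 * A * c ^ 2 * (A * |NB_I (fun x => x * deriv (deriv (deriv g)) x) 1 A c|) ≤
        2 * A * 1 * (4 * (3 * B) * s) := by
      refine mul_le_mul ?_ b5 (by positivity) (by positivity)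
      nlinarith
    have h7 : 0 ≤ B * s * A := by positivity
    have h8 : 0 ≤ B * s * A ^ 2 := by positivity
    nlinarith

end SF
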