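import Mathlib
import Pool.Agent.helper1.SF.SpecA

set_option autoImplicit false

namespace SF

open Pool.Agent.helper72.Sq MeasureTheory Set
open scoped ContDiff

theorem PKA_eta_one {u : ℝ} (h : u ≤ 1 / 4) : eta u = 1 := by
  unfold eta
  exact Real.smoothTransition.one_of_one_le (by linarith)

theorem PKA_eta_zero {u : ℝ} (h : 1 / 2 ≤ u) : eta u = 0 := by
  unfold eta
  exact Real.smoothTransition.zero_of_nonpos (by linarith)

theorem PKA_eta_contDiff : ContDiff ℝ ∞ eta := by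
  unfold eta
  exact Real.smoothTransition.contDiff.comp (by fun_prop)

theorem PKA_E0_low {w : ℝ} (h : w ≤ 1 / 8) : E0 w = 0 := by
  unfold E0
  rw [PKA_eta_one (by linarith), PKA_eta_one (by linarith)]
  ring

theorem PKA_E0_high {w : ℝ} (h : 1 / 2 ≤ w) : E0 w = 0 := by
  unfold E0
  rw [PKA_eta_zero h, PKA_eta_zero (by linarith)]
  ring

theorem PKA_E0_contDiff : ContDiff ℝ ∞ E0 := by
  rw [contDiff_iff_contDiffAt]
  intro w
  rcases lt_or_ge w (1 / 8) with h | h
  · have h1 : E0 =ᶠ[nhds w] fun _ => (0 : ℝ) := by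
      filter_upwards [gt_mem_nhds h] with u hu
      exact PKA_E0_low (le_of_lt hu)
    exact contDiffAt_const.congr_of_eventuallyEq h1
  · have h0 : w ≠ 0 := by linarith
    have h1 : ContDiffAt ℝ ∞ (fun w : ℝ => √w) w := Real.contDiffAt_sqrt h0
    have h2 : ContDiff ℝ ∞ (fun w : ℝ => eta w - eta (2 * w)) :=
      PKA_eta_contDiff.sub (PKA_eta_contDiff.comp (by fun_prop))
    exact h1.mul h2.contDiffAt

theorem PKA_supp {w : ℝ} (h : E0 w ≠ 0) : 1 / 8 < w ∧ w < 1 / 2 := by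
  constructor
  · by_contra hc
    exact h (PKA_E0_low (not_lt.1 hc))
  · by_contra hc
    exact h (PKA_E0_high (not_lt.1 hc))

theorem PKA_low (k : ℕ) {a : ℝ} (h : a ≤ 1 + 1 / 2 ^ (k + 3)) : pk k a = 0 := by
  unfold pk
  split_ifs with h1
  · have h2 : (2 : ℝ) ^ k * (1 - 1 / a) ≤ 1 / 8 := by
      have hp : (0 : ℝ) < 2 ^ k := by positivity
      have h3 : 1 - 1 / a ≤ 1 / 2 ^ (k + 3) := by
        have ha : 0 < a := by linarith
        rw [sub_le_iff_le_add, ← sub_le_iff_le_add', le_div_iff₀ ha]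
        have h4 : (0 : ℝ) ≤ 1 / 2 ^ (k + 3) := by positivity
        nlinarith
      calc (2 : ℝ) ^ k * (1 - 1 / a) ≤ 2 ^ k * (1 / 2 ^ (k + 3)) :=
            mul_le_mul_of_nonneg_left h3 hp.le
        _ = 1 / 8 := by
            rw [pow_add]
            field_simp
            norm_num
    rw [PKA_E0_low h2]
    simp
  · rfl

theorem PKA_high (k : ℕ) {a : ℝ} (h : 1 + 8 * (1 / 2 ^ (k + 3)) ≤ a) : pk k a = 0 := by
  unfold pk
  split_ifs with h1
  · have hp : (0 : ℝ) < 2 ^ k := by positivity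
    have e : (8 : ℝ) * (1 / 2 ^ (k + 3)) = 1 / 2 ^ k := by
      rw [pow_add]
      field_simp
      norm_num
    rw [e] at h
    have hp1 : (1 : ℝ) ≤ 2 ^ k := one_le_pow₀ (by norm_num)
    have h2 : 1 / 2 ≤ (2 : ℝ) ^ k * (1 - 1 / a) := by
      have h3 : 1 / (2 * 2 ^ k) ≤ 1 - 1 / a := by
        have ha : 0 < a := by linarith
        have h4 : 1 / a ≤ 1 / (1 + 1 / 2 ^ k) := one_div_le_one_div_of_le (by positivity) h
        have h5 : 1 / (2 * 2 ^ k) ≤ 1 - 1 / (1 + 1 / (2 : ℝ) ^ k) := by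
          rw [show 1 - 1 / (1 + 1 / (2 : ℝ) ^ k) = 1 / (2 ^ k + 1) by field_simp; ring]
          apply one_div_le_one_div_of_le (by positivity)
          linarith
        linarith
      calc (1 : ℝ) / 2 = 2 ^ k * (1 / (2 * 2 ^ k)) := by field_simp
        _ ≤ _ := mul_le_mul_of_nonneg_left h3 hp.le
    rw [PKA_E0_high h2]
    simp
  · rfl

theorem PKA_smooth (k : ℕ) : ContDiff ℝ ∞ (pk k) := by
  rw [contDiff_iff_contDiffAt]
  intro a
  rcases lt_or_ge a (1 + 1 / 2 ^ (k + 3)) with h | h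
  · have h1 : pk k =ᶠ[nhds a] fun _ => (0 : ℝ) := by
      filter_upwards [gt_mem_nhds h] with u hu
      exact PKA_low k (le_of_lt hu)
    exact contDiffAt_const.congr_of_eventuallyEq h1
  · have hp : (0 : ℝ) < 1 / 2 ^ (k + 3) := by positivity
    have ha : 1 < a := by linarith
    have h1 : pk k =ᶠ[nhds a] fun a => E0 (2 ^ k * (1 - 1 / a)) / √(2 ^ k * a) := by
      filter_upwards [lt_mem_nhds ha] with u hu
      unfold pk
      rw [if_pos hu]
    refine ContDiffAt.congr_of_eventuallyEq ?_ h1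
    have ha0 : a ≠ 0 := by linarith
    have hq : (2 : ℝ) ^ k * a ≠ 0 := mul_ne_zero (by positivity) ha0
    have h2 : ContDiffAt ℝ ∞ (fun a : ℝ => (2 : ℝ) ^ k * (1 - 1 / a)) a :=
      contDiffAt_const.mul (contDiffAt_const.sub (contDiffAt_const.div contDiffAt_id ha0))
    have h3 : ContDiffAt ℝ ∞ (fun a : ℝ => √((2 : ℝ) ^ k * a)) a :=
      (Real.contDiffAt_sqrt hq).comp a (contDiffAt_const.mul contDiffAt_id)
    have h4 : √((2 : ℝ) ^ k * a) ≠ 0 := by
      apply ne_of_gt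
      apply Real.sqrt_pos.2
      positivity
    exact (PKA_E0_contDiff.contDiffAt.comp a h2).div h3 h4

theorem PKA : PKA_stmt := by
  refine ⟨PKA_E0_contDiff, fun w h => PKA_supp h, fun k => ⟨?_, by positivity, ?_, ?_⟩⟩
  · have h8 : (8 : ℝ) * (1 / 2 ^ (k + 3)) ≤ 1 := by
      have e : (8 : ℝ) * (1 / 2 ^ (k + 3)) = 1 / 2 ^ k := by
        rw [pow_add]
        field_simp
        norm_num
      have hp1 : (1 : ℝ) ≤ 2 ^ k := one_le_pow₀ (by norm_num)
      rw [e]
      exact (div_le_one (by positivity)).2 hp1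
    refine ⟨PKA_smooth k, fun a h => PKA_low k ?_, fun a h => PKA_high k ?_⟩
    · have hp : (0 : ℝ) < 1 / 2 ^ (k + 3) := by positivity
      linarith
    · linarith
  · rw [one_div, one_div, pow_add]
    apply inv_anti₀ (by norm_num)
    have hp1 : (1 : ℝ) ≤ 2 ^ k := one_le_pow₀ (by norm_num)
    nlinarith
  · rintro a (h | h)
    · exact PKA_low k h
    · exact PKA_high k h

end SF
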